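import Mathlib
import Pool.Agent.Helper278.MUFin
import Pool.Agent.Helper278.CEStd

set_option autoImplicit false

open scoped Topology ComplexOrder
open Filter

namespace Pool.Agent.N277.OM

/-- auxiliary function -/
noncomputable def g1 (δ t : ℝ) : ℝ := Real.sqrt (max t 0 + δ ^ 2)

theorem g1_pos (δ t : ℝ) (hδ : 0 < δ) : 0 < g1 δ t := by
  unfold g1
  apply Real.sqrt_pos.2
  have := le_max_right t 0
  positivity

theorem g1_cont (δ : ℝ) : Continuous (g1 δ) := by
  unfold g1
  fun_prop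

theorem g1_sq (δ t : ℝ) : g1 δ t * g1 δ t = max t 0 + δ ^ 2 := by
  unfold g1
  exact Real.mul_self_sqrt (add_nonneg (le_max_right _ _) (sq_nonneg _))

theorem le_g1 (δ t : ℝ) : δ ≤ g1 δ t := by
  unfold g1
  apply Real.le_sqrt_of_sq_le
  have := le_max_right t 0
  linarith

/-- A substitute for the polar decomposition. -/
theorem polar_cstar {A : Type*} [CStarAlgebra A] (z : A) (δ : ℝ) (hδ : 0 < δ) :
    ∃ v k w : A, ‖v‖ ≤ 1 ∧ star k = k ∧ z = v * (k * k) ∧ ‖k‖ ≤ 2 + ‖z‖ ^ 2 + δ ^ 2 ∧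
      (δ : ℂ) • (1 : A) - (k * k - star z * v) = star w * w := by
  let _ := CStarAlgebra.spectralOrder A
  have _ := CStarAlgebra.spectralOrderedRing A
  set a : A := star z * z with ha
  have ha0 : 0 ≤ a := star_mul_self_nonneg z
  have hsa : IsSelfAdjoint a := IsSelfAdjoint.of_nonneg ha0
  have hspec : ∀ t ∈ spectrum ℝ a, 0 ≤ t := fun t ht => spectrum_nonneg_of_nonneg ha0 ht
  have hgc : Continuous (fun t => (g1 δ t)⁻¹) :=
    (g1_cont δ).inv₀ fun t => (g1_pos δ t hδ).ne'
  have hkc : Continuous (fun t => Real.sqrt (g1 δ t)) := (g1_cont δ).sqrt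
  set g : A := cfc (fun t => (g1 δ t)⁻¹) a with hg
  set k : A := cfc (fun t => Real.sqrt (g1 δ t)) a with hk
  have hkk : k * k = cfc (g1 δ) a := by
    rw [hk, ← cfc_mul _ _ a hkc.continuousOn hkc.continuousOn]
    apply cfc_congr
    intro t _
    exact Real.mul_self_sqrt (g1_pos δ t hδ).le
  have hgs : star g = g :=
    (cfc_predicate _ a : IsSelfAdjoint (cfc (fun t => (g1 δ t)⁻¹) a)).star_eq
  have hks : star k = k :=
    (cfc_predicate _ a : IsSelfAdjoint (cfc (fun t => Real.sqrt (g1 δ t)) a)).star_eq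
  have hzv : star z * (z * g) = cfc (fun t => t * (g1 δ t)⁻¹) a := by
    rw [← mul_assoc, ← ha, cfc_mul (fun t : ℝ => t) (fun t => (g1 δ t)⁻¹) a continuousOn_id
      hgc.continuousOn, cfc_id' ℝ a hsa]
  have hhc : Continuous fun t => δ - (g1 δ t - t * (g1 δ t)⁻¹) :=
    continuous_const.sub ((g1_cont δ).sub (continuous_id.mul hgc))
  refine ⟨z * g, k, cfc (fun t => Real.sqrt (δ - (g1 δ t - t * (g1 δ t)⁻¹))) a, ?_, hks, ?_, ?_, ?_⟩
  · have e : star (z * g) * (z * g) = cfc (fun t => (g1 δ t)⁻¹ * (t * (g1 δ t)⁻¹)) a := by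
      rw [star_mul, hgs, cfc_mul (fun t => (g1 δ t)⁻¹) (fun t => t * (g1 δ t)⁻¹) a hgc.continuousOn
          (continuous_id.mul hgc).continuousOn, ← hzv, mul_assoc]
    have h1 : ‖star (z * g) * (z * g)‖ ≤ 1 := by
      rw [e]
      refine norm_cfc_le zero_le_one fun t ht => ?_
      have h1 := g1_pos δ t hδ
      have h2 := g1_sq δ t
      have h0 := hspec t ht
      rw [max_eq_left h0] at h2
      have h3 : (g1 δ t)⁻¹ * (t * (g1 δ t)⁻¹) = t / (g1 δ t * g1 δ t) := by
        field_simp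
      rw [h3, h2, Real.norm_eq_abs, abs_of_nonneg (by positivity), div_le_one (by positivity)]
      have := sq_nonneg δ
      linarith
    rw [CStarRing.norm_star_mul_self] at h1
    nlinarith [norm_nonneg (z * g)]
  · rw [hkk, mul_assoc, hg, ← cfc_mul _ _ a hgc.continuousOn (g1_cont δ).continuousOn]
    have e : cfc (fun t => (g1 δ t)⁻¹ * g1 δ t) a = 1 := by
      rw [← cfc_const_one ℝ a]
      apply cfc_congr
      intro t _
      exact inv_mul_cancel₀ (g1_pos δ t hδ).ne'
    rw [e, mul_one]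
  · rw [hk]
    refine norm_cfc_le (by positivity) fun t ht => ?_
    have h0 := hspec t ht
    have h3 : t ≤ ‖z‖ ^ 2 := by
      have h4 : ‖t‖ ≤ ‖a‖ * ‖(1 : A)‖ := spectrum.norm_le_norm_mul_of_mem ht
      have h5 : ‖(1 : A)‖ ≤ 1 := by
        have h6 := CStarRing.norm_star_mul_self (x := (1 : A))
        rw [star_one, one_mul] at h6
        by_contra hc
        push Not at hc
        nlinarith
      have h7 : ‖a‖ = ‖z‖ ^ 2 := by rw [ha, CStarRing.norm_star_mul_self, sq]
      rw [h7] at h4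
      have h8 := le_abs_self t
      rw [Real.norm_eq_abs] at h4
      nlinarith [sq_nonneg ‖z‖]
    rw [Real.norm_eq_abs, abs_of_nonneg (Real.sqrt_nonneg _)]
    have h4 := g1_sq δ t
    rw [max_eq_left h0] at h4
    have h5 := g1_pos δ t hδ
    have h6 : g1 δ t ≤ 1 + ‖z‖ ^ 2 + δ ^ 2 := by nlinarith [sq_nonneg (g1 δ t - 1), sq_nonneg δ]
    have h7 := Real.mul_self_sqrt h5.le
    have h8 := Real.sqrt_nonneg (g1 δ t)
    nlinarith [sq_nonneg (Real.sqrt (g1 δ t) - 1)]
  · have hws : star (cfc (fun t => Real.sqrt (δ - (g1 δ t - t * (g1 δ t)⁻¹))) a) =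
        cfc (fun t => Real.sqrt (δ - (g1 δ t - t * (g1 δ t)⁻¹))) a :=
      (cfc_predicate _ a : IsSelfAdjoint
        (cfc (fun t => Real.sqrt (δ - (g1 δ t - t * (g1 δ t)⁻¹))) a)).star_eq
    rw [hws, ← cfc_mul _ _ a hhc.sqrt.continuousOn hhc.sqrt.continuousOn, hkk, hzv]
    have e : (δ : ℂ) • (1 : A) - (cfc (g1 δ) a - cfc (fun t => t * (g1 δ t)⁻¹) a) =
        cfc (fun t => δ - (g1 δ t - t * (g1 δ t)⁻¹)) a := by
      rw [cfc_sub (fun _ => δ) (fun t => g1 δ t - t * (g1 δ t)⁻¹) a continuousOn_const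
            ((g1_cont δ).sub (continuous_id.mul hgc)).continuousOn,
          cfc_sub (g1 δ) (fun t => t * (g1 δ t)⁻¹) a (g1_cont δ).continuousOn
            (continuous_id.mul hgc).continuousOn, cfc_const δ a hsa,
          Algebra.algebraMap_eq_smul_one]
      rfl
    rw [e]
    apply cfc_congr
    intro t ht
    have h0 := hspec t ht
    have h2 := g1_sq δ t
    rw [max_eq_left h0] at h2
    have h5 := g1_pos δ t hδ
    have h6 := le_g1 δ t
    have h7 : g1 δ t - t * (g1 δ t)⁻¹ = δ ^ 2 * (g1 δ t)⁻¹ := by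
      field_simp
      linarith
    have h8 : δ ^ 2 * (g1 δ t)⁻¹ ≤ δ := by
      rw [mul_inv_le_iff₀ h5]
      nlinarith
    have h9 : 0 ≤ δ - (g1 δ t - t * (g1 δ t)⁻¹) := by rw [h7]; linarith
    exact (Real.mul_self_sqrt h9).symm

section matrix

open Pool.Agent.Helper278
open scoped Matrix.Norms.L2Operator

variable {n : ℕ}

theorem bdd (x : BddSeq) : ∃ C : ℝ, 0 ≤ C ∧ ∀ n, ‖x.1 n‖ ≤ C := by
  obtain ⟨C, hC⟩ := x.2
  exact ⟨|C|, abs_nonneg _, fun n => (hC n).norm_le⟩

theorem ntr_add (x y : Mat n) : ntr n (x + y) = ntr n x + ntr n y := by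
  unfold ntr; rw [Matrix.trace_add, mul_add]

theorem ntr_smul (c : ℂ) (x : Mat n) : ntr n (c • x) = c * ntr n x := by
  unfold ntr; rw [Matrix.trace_smul, smul_eq_mul]; ring

theorem ntr_comm (x y : Mat n) : ntr n (x * y) = ntr n (y * x) := by
  unfold ntr; rw [Matrix.trace_mul_comm]

theorem ntr_star (x : Mat n) : ntr n (star x) = star (ntr n x) := by
  unfold ntr
  rw [Matrix.star_eq_conjTranspose, Matrix.trace_conjTranspose, StarMul.star_mul, star_inv₀,
    mul_comm]
  congr 1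
  simp

/-- the matrix as a vector -/
noncomputable def eF (x : Mat n) : EuclideanSpace ℂ (Fin n × Fin n) :=
  WithLp.toLp 2 (fun p => x p.1 p.2)

theorem sqrt_s2 (x : Mat n) : Real.sqrt (s2 n x) = Real.sqrt ((n : ℝ)⁻¹) * ‖eF x‖ := by
  unfold s2
  rw [Real.sqrt_mul (by positivity), EuclideanSpace.norm_eq]
  congr 2
  rw [Fintype.sum_prod_type]
  rfl

theorem eF_sub (x y : Mat n) : eF (x - y) = eF x - eF y := rfl

theorem s2_tri (x y z : Mat n) :
    Real.sqrt (s2 n (x - z)) ≤ Real.sqrt (s2 n (x - y)) + Real.sqrt (s2 n (y - z)) := by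
  rw [sqrt_s2, sqrt_s2, sqrt_s2, ← mul_add]
  refine mul_le_mul_of_nonneg_left ?_ (Real.sqrt_nonneg _)
  rw [eF_sub, eF_sub, eF_sub]
  exact norm_sub_le_norm_sub_add_norm_sub _ _ _

theorem ntr_sub' (x y : Mat n) : ntr n (x - y) = ntr n x - ntr n y := by
  unfold ntr; rw [Matrix.trace_sub, mul_sub]

theorem chain_bound (X : ℕ → Mat n) (M m : ℕ) (hm : m ≤ M)
    (h : ∀ l < M, Real.sqrt (s2 n (X l - X (l + 1))) ≤ 2 * (1 / 2) ^ l) :
    Real.sqrt (s2 n (X m - X M)) ≤ 4 * (1 / 2) ^ m - 4 * (1 / 2) ^ M := by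
  induction M, hm using Nat.le_induction with
  | base =>
    have h1 : Real.sqrt (s2 n (X m - X m)) = 0 := by
      rw [sub_self]; unfold s2; simp
    rw [h1, sub_self]
  | succ M hM ih =>
    have h1 := ih fun l hl => h l (by omega)
    have h2 := h M (by omega)
    have h3 := s2_tri (X m) (X M) (X (M + 1))
    have h4 : ((1 : ℝ) / 2) ^ (M + 1) = (1 / 2) ^ M / 2 := by rw [pow_succ]; ring
    rw [h4]
    linarith

/-- bounded sequences of matrices -/
def mkS (x : ∀ n : ℕ, Mat n) (C : ℝ) (h : ∀ n, ‖x n‖ ≤ C) : BddSeq :=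
  ⟨x, C, fun n => opBound_of_norm (h n)⟩

variable {U : Ultrafilter ℕ} {Q : Type*} [Ring Q] [StarRing Q] [Algebra ℂ Q] [StarModule ℂ Q]
  {π : BddSeq →⋆ₐ[ℂ] Q} {τ : Q → ℂ}

theorem ker' (h : IsMatUltra U π τ) (x : BddSeq) :
    π x = 0 ↔ Tendsto (fun n => s2 n (x.1 n)) U (𝓝 0) := by
  rw [h.ker]
  simp only [ntr_star_mul]
  constructor
  · intro h1
    have := (Complex.continuous_re.tendsto _).comp h1
    rw [Complex.zero_re] at this
    exact this
  · intro h1
    have := (Complex.continuous_ofReal.tendsto _).comp h1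
    rw [Complex.ofReal_zero] at this
    exact this

/-- the trace as a linear functional -/
noncomputable def lin (h : IsMatUltra U π τ) : Q →ₗ[ℂ] ℂ where
  toFun := τ
  map_add' x y := by
    obtain ⟨x, rfl⟩ := h.surj x
    obtain ⟨y, rfl⟩ := h.surj y
    rw [← map_add]
    refine tendsto_nhds_unique (h.trace (x + y)) ?_
    refine ((h.trace x).add (h.trace y)).congr fun n => ?_
    rw [← ntr_add]
    rfl
  map_smul' c x := by
    obtain ⟨x, rfl⟩ := h.surj x
    rw [← map_smul, RingHom.id_apply, smul_eq_mul]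
    refine tendsto_nhds_unique (h.trace (c • x)) ?_
    refine ((h.trace x).const_mul c).congr fun n => ?_
    rw [← ntr_smul]
    rfl

theorem lin_apply (h : IsMatUltra U π τ) (x : Q) : lin h x = τ x := rfl

theorem tendsto_s2 (h : IsMatUltra U π τ) (x : BddSeq) :
    Tendsto (fun n => s2 n (x.1 n)) U (𝓝 (τ (star (π x) * π x)).re) ∧
      (τ (star (π x) * π x)).im = 0 := by
  have h1 := h.trace (star x * x)
  rw [map_mul, map_star] at h1
  have h2 : ∀ n, ntr n ((star x * x : BddSeq).1 n) = (s2 n (x.1 n) : ℂ) := by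
    intro n
    rw [← ntr_star_mul]
    rfl
  simp only [h2] at h1
  refine ⟨?_, ?_⟩
  · have := (Complex.continuous_re.tendsto _).comp h1
    exact this
  · have h3 := (Complex.continuous_im.tendsto _).comp h1
    refine tendsto_nhds_unique h3 ?_
    refine tendsto_const_nhds.congr fun n => ?_
    simp

theorem trAlg' (h : IsMatUltra U π τ) (hU : ∀ᶠ n in (U : Filter ℕ), 0 < n) :
    TrAlg (lin h) where
  one := by
    have h1 := h.trace 1
    rw [map_one] at h1
    refine tendsto_nhds_unique h1 ?_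
    refine tendsto_const_nhds.congr' ?_
    filter_upwards [hU] with n hn
    show 1 = ntr n (1 : Mat n)
    unfold ntr
    rw [Matrix.trace_one, Fintype.card_fin]
    have : (n : ℂ) ≠ 0 := by exact_mod_cast hn.ne'
    rw [inv_mul_cancel₀ this]
  comm := by
    intro x y
    obtain ⟨x, rfl⟩ := h.surj x
    obtain ⟨y, rfl⟩ := h.surj y
    have h1 := h.trace (x * y)
    have h2 := h.trace (y * x)
    rw [map_mul] at h1 h2
    refine tendsto_nhds_unique h1 (h2.congr fun n => ?_)
    exact ntr_comm _ _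
  nonneg := by
    intro x
    obtain ⟨x, rfl⟩ := h.surj x
    obtain ⟨h1, h2⟩ := tendsto_s2 h x
    rw [lin_apply, Complex.nonneg_iff]
    exact ⟨ge_of_tendsto' h1 fun n => s2_nonneg _, h2.symm⟩
  conj := by
    intro x
    obtain ⟨x, rfl⟩ := h.surj x
    have h1 := h.trace (star x)
    rw [map_star] at h1
    have h2 := (continuous_star.tendsto _).comp (h.trace x)
    refine tendsto_nhds_unique h1 (h2.congr fun n => ?_)
    exact (ntr_star _).symm
  faithful := by
    intro x hx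
    obtain ⟨x, rfl⟩ := h.surj x
    obtain ⟨h1, h2⟩ := tendsto_s2 h x
    rw [ker' h]
    rw [lin_apply] at hx
    rwa [hx] at h1

theorem tendsto_n2 (h : IsMatUltra U π τ) (x : BddSeq) :
    Tendsto (fun n => Real.sqrt (s2 n (x.1 n))) U (𝓝 (n2 τ (π x))) := by
  have := (Real.continuous_sqrt.tendsto _).comp (tendsto_s2 h x).1
  exact this

/-- the unit ball of the matrix ultraproduct -/
def ballM (π : BddSeq →⋆ₐ[ℂ] Q) : Set Q := {q | ∃ x : BddSeq, (∀ n, ‖x.1 n‖ ≤ 1) ∧ π x = q}

theorem tendsto_n2L (h : IsMatUltra U π τ) (x : BddSeq) :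
    Tendsto (fun n => Real.sqrt (s2 n (x.1 n))) U (𝓝 (n2 (lin h) (π x))) := tendsto_n2 h x

theorem ball_mat (hU : ∀ n, {n} ∉ U) (h : IsMatUltra U π τ) : CE.Ball (lin h) (ballM π) := by
  classical
  have hUt : (U : Filter ℕ) ≤ atTop := by
    rcases Ultrafilter.le_cofinite_or_eq_pure U with h1 | ⟨n, hn⟩
    · rwa [Nat.cofinite_eq_atTop] at h1
    · exfalso
      apply hU n
      rw [hn]
      exact Ultrafilter.mem_pure.2 rfl
  refine ⟨?_, ?_, ?_, ?_, ?_, ?_⟩
  · rintro _ ⟨x, hx, rfl⟩ b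
    obtain ⟨y, rfl⟩ := h.surj b
    rw [← map_mul]
    refine le_of_tendsto_of_tendsto' (tendsto_n2L h (x * y)) (tendsto_n2L h y) fun n => ?_
    refine Real.sqrt_le_sqrt ?_
    show s2 n (x.1 n * y.1 n) ≤ s2 n (y.1 n)
    refine (s2_mul_le _ _).trans ?_
    have h1 : ‖x.1 n‖ ^ 2 ≤ 1 := by
      have := hx n
      have h2 := norm_nonneg (x.1 n)
      nlinarith
    have h2 := s2_nonneg (y.1 n)
    nlinarith
  · rintro _ ⟨x, hx, rfl⟩ _ ⟨y, hy, rfl⟩ s hs hs1
    refine ⟨(s : ℂ) • x + ((1 - s : ℝ) : ℂ) • y, fun n => ?_, ?_⟩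
    · show ‖(s : ℂ) • x.1 n + ((1 - s : ℝ) : ℂ) • y.1 n‖ ≤ 1
      refine (norm_add_le _ _).trans ?_
      rw [norm_smul, norm_smul, Complex.norm_real, Complex.norm_real, Real.norm_eq_abs,
        Real.norm_eq_abs, abs_of_nonneg hs, abs_of_nonneg (by linarith : (0 : ℝ) ≤ 1 - s)]
      have h1 := hx n
      have h2 := hy n
      nlinarith
    · rw [map_add, map_smul, map_smul]
  · refine ⟨0, fun n => ?_, map_zero π⟩
    show ‖(0 : Mat n)‖ ≤ 1
    rw [norm_zero]
    exact zero_le_one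
  · intro q hq hqd
    choose X hX hXq using hq
    -- the good sets
    let S : ℕ → ℕ → Prop := fun k m => m ≤ k ∧ ∀ l < m,
      Real.sqrt (s2 k ((X l).1 k - (X (l + 1)).1 k)) ≤ 2 * (1 / 2) ^ l
    have hS0 : ∀ k, S k 0 := fun k => ⟨Nat.zero_le _, fun l hl => absurd hl (Nat.not_lt_zero _)⟩
    have hev : ∀ m, ∀ᶠ k in (U : Filter ℕ), S k m := by
      intro m
      have hm : ∀ᶠ k in (U : Filter ℕ), m ≤ k := hUt (eventually_ge_atTop m)
      refine hm.and ?_
      have h1 : ∀ l ∈ Finset.range m, ∀ᶠ k in (U : Filter ℕ),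
          Real.sqrt (s2 k ((X l).1 k - (X (l + 1)).1 k)) ≤ 2 * (1 / 2) ^ l := by
        intro l _
        have h2 := tendsto_n2L h (X l - X (l + 1))
        rw [map_sub, hXq, hXq] at h2
        have h3 : n2 (lin h) (q l - q (l + 1)) < 2 * (1 / 2) ^ l := by
          refine (hqd l).trans_lt ?_
          have : (0 : ℝ) < (1 / 2) ^ l := by positivity
          linarith
        exact (h2.eventually (gt_mem_nhds h3)).mono fun k hk => le_of_lt hk
      have h4 := (Filter.eventually_all_finset (Finset.range m)).2 h1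
      exact h4.mono fun k hk l hl => hk l (Finset.mem_range.2 hl)
    let μ : ℕ → ℕ := fun k => Nat.findGreatest (S k) k
    have hμS : ∀ k, S k (μ k) := fun k => Nat.findGreatest_spec (Nat.zero_le k) (hS0 k)
    have hμge : ∀ k m, S k m → m ≤ μ k := fun k m hm => Nat.le_findGreatest hm.1 hm
    let Y : BddSeq := mkS (fun k => (X (μ k)).1 k) 1 (fun k => hX _ _)
    refine ⟨π Y, ⟨Y, fun k => hX _ _, rfl⟩, ?_⟩
    have hb : ∀ m, n2 (lin h) (q m - π Y) ≤ 4 * (1 / 2) ^ m := by
      intro m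
      rw [← hXq m, ← map_sub]
      refine le_of_tendsto (tendsto_n2L h (X m - Y)) ?_
      refine (hev m).mono fun k hk => ?_
      have h1 := chain_bound (fun l => (X l).1 k) (μ k) m (hμge k m hk) (hμS k).2
      have h2 : (0 : ℝ) < (1 / 2) ^ (μ k) := by positivity
      show Real.sqrt (s2 k ((X m).1 k - (X (μ k)).1 k)) ≤ _
      linarith
    have h3 : Tendsto (fun m : ℕ => 4 * ((1 : ℝ) / 2) ^ m) atTop (𝓝 0) := by
      have := (tendsto_pow_atTop_nhds_zero_of_lt_one (by norm_num : (0 : ℝ) ≤ 1 / 2)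
        (by norm_num)).const_mul 4
      rwa [mul_zero] at this
    exact squeeze_zero (fun m => n2_nonneg _ _) hb h3
  · intro z δ hδ
    obtain ⟨x, rfl⟩ := h.surj z
    obtain ⟨C, hC0, hC⟩ := bdd x
    choose v k w hv hks hz hkn hw using fun n => polar_cstar (x.1 n) δ hδ
    have hkb : ∀ n, ‖k n‖ ≤ 2 + C ^ 2 + δ ^ 2 := by
      intro n
      refine (hkn n).trans ?_
      have h1 := pow_le_pow_left₀ (norm_nonneg _) (hC n) 2
      linarith
    let V : BddSeq := mkS v 1 hv
    let K : BddSeq := mkS k _ hkb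
    refine ⟨π V, ⟨V, hv, rfl⟩, π K, ?_, ?_, ?_⟩
    · rw [← map_star]
      congr 1
      exact Subtype.ext (funext fun n => hks n)
    · rw [← map_mul, ← map_mul]
      congr 1
      exact Subtype.ext (funext fun n => hz n)
    · have h1 := (Complex.continuous_re.tendsto _).comp (h.trace (K * K))
      have h2 := ((Complex.continuous_re.tendsto _).comp (h.trace (star x * V))).add_const δ
      have h0 : ∀ᶠ n in (U : Filter ℕ), 0 < n := hUt (eventually_gt_atTop 0)
      have h3 : (τ (π (K * K))).re ≤ (τ (π (star x * V))).re + δ := by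
        refine le_of_tendsto_of_tendsto h1 h2 ?_
        filter_upwards [h0] with n hn
        have h4 := congrArg (fun y => (ntr n y).re) (hw n)
        have h5 : ntr n (1 : Mat n) = 1 := by
          unfold ntr
          rw [Matrix.trace_one, Fintype.card_fin]
          have : (n : ℂ) ≠ 0 := by exact_mod_cast hn.ne'
          rw [inv_mul_cancel₀ this]
        simp only [ntr_star_mul] at h4
        rw [ntr_sub', ntr_sub', ntr_smul, h5, mul_one, Complex.sub_re, Complex.sub_re,
          Complex.ofReal_re, Complex.ofReal_re] at h4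
        have h6 := s2_nonneg (w n)
        show (ntr n (k n * k n)).re ≤ (ntr n (star (x.1 n) * v n)).re + δ
        linarith
      rw [map_mul, map_mul, map_star] at h3
      exact h3
  · intro a
    obtain ⟨x, rfl⟩ := h.surj a
    obtain ⟨C, hC0, hC⟩ := bdd x
    refine ⟨(C + 1)⁻¹, by positivity, ((((C + 1)⁻¹ : ℝ)) : ℂ) • x, fun n => ?_, ?_⟩
    · show ‖((((C + 1)⁻¹ : ℝ)) : ℂ) • x.1 n‖ ≤ 1
      rw [norm_smul, Complex.norm_real, Real.norm_eq_abs, abs_of_nonneg (by positivity),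
        inv_mul_le_iff₀ (by positivity), mul_one]
      have := hC n
      linarith
    · rw [map_smul]

end matrix

end Pool.Agent.N277.OM
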